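import Pool.Agent.Q117.SA.Dens

namespace Pool.Agent.Q117.SA

open MeasureTheory Set

/-- Locally integrable functions. -/
structure Bdd (k : ℝ → ℝ) : Prop where
  li : LocallyIntegrable k volume

theorem Bdd.ii {k : ℝ → ℝ} (h : Bdd k) (a b : ℝ) : IntervalIntegrable k volume a b :=
  (h.li.integrableOn_isCompact isCompact_uIcc).intervalIntegrable

theorem Bdd.mulc {k c : ℝ → ℝ} (h : Bdd k) (hc : Continuous c) : Bdd (fun x => k x * c x) :=
  ⟨h.li.mul_continuous hc⟩

theorem Bdd.one_sub {k : ℝ → ℝ} (h : Bdd k) : Bdd (fun x => 1 - k x) :=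
  ⟨(locallyIntegrable_const (1 : ℝ)).sub h.li⟩

theorem bdd_of {k : ℝ → ℝ} (hm : Measurable k) (C : ℝ) (hC : ∀ x, |k x| ≤ C) : Bdd k := by
  refine ⟨(locallyIntegrable_const C).mono hm.aestronglyMeasurable ?_⟩
  refine Filter.Eventually.of_forall fun x => ?_
  rw [Real.norm_eq_abs, Real.norm_eq_abs]
  exact (hC x).trans (le_abs_self C)

theorem Bdd.der {k : ℝ → ℝ} (h : Bdd k) :
    ∀ᵐ x, ∀ c, HasDerivAt (fun x => ∫ t in c..x, k t) (k x) x :=
  LocallyIntegrable.ae_hasDerivAt_integral h.li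

theorem Bdd.ac {k : ℝ → ℝ} (h : Bdd k) (a b c : ℝ) :
    AbsolutelyContinuousOnInterval (fun x => ∫ t in c..x, k t) a b := by
  have h1 := (h.ii a b).absolutelyContinuousOnInterval_intervalIntegral (c := a) (by simp)
  have h2 : (fun x => ∫ t in c..x, k t) =
      fun x => (∫ t in c..a, k t) + ∫ t in a..x, k t := by
    funext x
    rw [intervalIntegral.integral_add_adjacent_intervals (h.ii _ _) (h.ii _ _)]
  rw [h2]
  exact (LipschitzWith.const (∫ t in c..a, k t)).lipschitzOnWith.absolutelyContinuousOnInterval.add h1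

/-- Fundamental theorem for absolutely continuous functions. -/
theorem ftc {F F' : ℝ → ℝ} {a b : ℝ} (hab : a ≤ b) (hF : AbsolutelyContinuousOnInterval F a b)
    (hd : ∀ᵐ x, x ∈ Ioo a b → HasDerivAt F (F' x) x) :
    ∫ x in a..b, F' x = F b - F a := by
  rw [← hF.integral_deriv_eq_sub]
  refine intervalIntegral.integral_congr_ae ?_
  have hb : ∀ᵐ x : ℝ, x ≠ b := by
    rw [ae_iff]
    simp
  filter_upwards [hd, hb] with x hx hxb hx2
  rw [uIoc_of_le hab] at hx2
  exact (hx ⟨hx2.1, lt_of_le_of_ne hx2.2 hxb⟩).deriv.symm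

/-- `A x = ∫_0^x f`. -/
noncomputable def A (f : ℝ → ℝ) (x : ℝ) : ℝ := ∫ t in (0 : ℝ)..x, f t

/-- `Z x = ∫_x^1 (1 - f)`. -/
noncomputable def Z (f : ℝ → ℝ) (x : ℝ) : ℝ := ∫ t in x..(1 : ℝ), (1 - f t)

variable {f : ℝ → ℝ} (hm : Measurable f) (h0 : ∀ x, 0 ≤ f x) (h1 : ∀ x, f x ≤ 1)

include hm h0 h1

theorem bf : Bdd f := bdd_of hm 1 fun x => by rw [abs_le]; constructor <;> linarith [h0 x, h1 x]

omit hm h0 h1 in
theorem Z_eq (x : ℝ) : Z f x = - ∫ t in (1 : ℝ)..x, (1 - f t) := by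
  unfold Z
  rw [intervalIntegral.integral_symm]

theorem A_ac (a b : ℝ) : AbsolutelyContinuousOnInterval (A f) a b :=
  (bf hm h0 h1).ac a b 0

theorem Z_ac (a b : ℝ) : AbsolutelyContinuousOnInterval (Z f) a b := by
  have h : Z f = - fun x => ∫ t in (1 : ℝ)..x, (1 - f t) := by
    funext x
    rw [Pi.neg_apply, Z_eq]
  rw [h]
  exact ((bf hm h0 h1).one_sub.ac a b 1).neg

theorem A_der : ∀ᵐ x, HasDerivAt (A f) (f x) x := by
  filter_upwards [(bf hm h0 h1).der] with x hx
  exact hx 0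

theorem Z_der : ∀ᵐ x, HasDerivAt (Z f) (-(1 - f x)) x := by
  have h : Z f = fun x => - ∫ t in (1 : ℝ)..x, (1 - f t) := by
    funext x
    rw [Z_eq]
  filter_upwards [(bf hm h0 h1).one_sub.der] with x hx
  rw [h]
  exact (hx 1).neg

theorem A_cont : Continuous (A f) := by
  unfold A
  exact intervalIntegral.continuous_primitive (fun a b => (bf hm h0 h1).ii a b) 0

theorem Z_cont : Continuous (Z f) := by
  have h : Z f = fun x => - ∫ t in (1 : ℝ)..x, (1 - f t) := by
    funext x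
    rw [Z_eq]
  rw [h]
  exact (intervalIntegral.continuous_primitive
    (fun a b => (bf hm h0 h1).one_sub.ii a b) 1).neg

theorem A_mono {x y : ℝ} (hxy : x ≤ y) : A f x ≤ A f y := by
  have : A f y = A f x + ∫ t in x..y, f t := by
    unfold A
    rw [intervalIntegral.integral_add_adjacent_intervals ((bf hm h0 h1).ii _ _)
      ((bf hm h0 h1).ii _ _)]
  rw [this]
  have := intervalIntegral.integral_nonneg hxy (fun t _ => h0 t) (μ := volume)
  linarith

theorem A_sub_le {x y : ℝ} (hxy : x ≤ y) : A f y - A f x ≤ y - x := by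
  have : A f y = A f x + ∫ t in x..y, f t := by
    unfold A
    rw [intervalIntegral.integral_add_adjacent_intervals ((bf hm h0 h1).ii _ _)
      ((bf hm h0 h1).ii _ _)]
  rw [this]
  have := intervalIntegral.integral_mono_on hxy ((bf hm h0 h1).ii x y)
    (intervalIntegrable_const (c := (1 : ℝ))) (fun t _ => h1 t)
  simp at this
  linarith

theorem A_add_Z (x : ℝ) : A f x - Z f x = x - 1 + A f 1 := by
  have e1 : A f 1 = A f x + ∫ t in x..1, f t := by
    unfold A
    rw [intervalIntegral.integral_add_adjacent_intervals ((bf hm h0 h1).ii _ _)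
      ((bf hm h0 h1).ii _ _)]
  have e2 : Z f x = (1 - x) - ∫ t in x..1, f t := by
    unfold Z
    rw [intervalIntegral.integral_sub intervalIntegrable_const ((bf hm h0 h1).ii _ _)]
    simp
  rw [e1, e2]
  ring

omit hm h0 h1 in
theorem A_zero : A f 0 = 0 := by simp [A]

omit hm h0 h1 in
theorem Z_one : Z f 1 = 0 := by simp [Z]

theorem A_nonneg {x : ℝ} (hx : 0 ≤ x) : 0 ≤ A f x := by
  have := A_mono hm h0 h1 hx
  rwa [A_zero] at this

theorem Z_anti {x y : ℝ} (hxy : x ≤ y) : Z f y ≤ Z f x := by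
  have e1 := A_add_Z hm h0 h1 x
  have e2 := A_add_Z hm h0 h1 y
  have := A_sub_le hm h0 h1 hxy
  linarith

theorem Z_nonneg {x : ℝ} (hx : x ≤ 1) : 0 ≤ Z f x := by
  have := Z_anti hm h0 h1 hx
  rwa [Z_one] at this

theorem Z_zero : Z f 0 = 1 - A f 1 := by
  have := A_add_Z hm h0 h1 0
  rw [A_zero] at this
  linarith

/-- `∫_x^1 (1 - f) Z = Z(x)^2 / 2`. -/
theorem int_Z {x : ℝ} (hx : x ≤ 1) : ∫ t in x..1, (1 - f t) * Z f t = Z f x ^ 2 / 2 := by
  have hac : AbsolutelyContinuousOnInterval (fun t => (-(1 / 2 : ℝ)) * (Z f * Z f) t) x 1 :=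
    ((Z_ac hm h0 h1 x 1).mul (Z_ac hm h0 h1 x 1)).const_mul _
  rw [ftc hx hac (F' := fun t => (1 - f t) * Z f t)]
  · simp only [Pi.mul_apply]
    rw [Z_one]
    ring
  · filter_upwards [Z_der hm h0 h1] with t ht _
    have := (ht.mul ht).const_mul (-(1 / 2 : ℝ))
    refine this.congr_deriv ?_
    ring

/-- Integration by parts. -/
theorem parts {k : ℝ → ℝ} (hk : Bdd k) :
    ∫ y in (0 : ℝ)..1, f y * (∫ x in y..1, k x) = ∫ y in (0 : ℝ)..1, A f y * k y := by
  have hK : ∀ y : ℝ, (∫ x in y..1, k x) = - ∫ x in (1 : ℝ)..y, k x := fun y => by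
    rw [intervalIntegral.integral_symm]
  have hac : AbsolutelyContinuousOnInterval (A f * fun y => ∫ x in (1 : ℝ)..y, k x) 0 1 :=
    (A_ac hm h0 h1 0 1).mul (hk.ac 0 1 1)
  have key := ftc (F' := fun y => f y * (∫ x in (1 : ℝ)..y, k x) + A f y * k y)
    zero_le_one hac ?_
  · rw [Pi.mul_apply, Pi.mul_apply, A_zero, intervalIntegral.integral_same] at key
    have i1 : IntervalIntegrable (fun y => f y * (∫ x in (1 : ℝ)..y, k x)) volume 0 1 := by
      refine ((bf hm h0 h1).ii 0 1).mul_continuousOn ?_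
      exact (intervalIntegral.continuous_primitive (fun a b => hk.ii a b) 1).continuousOn
    have i2 : IntervalIntegrable (fun y => A f y * k y) volume 0 1 := by
      refine (hk.ii 0 1).continuousOn_mul ?_
      exact (A_cont hm h0 h1).continuousOn
    rw [intervalIntegral.integral_add i1 i2] at key
    have : (∫ y in (0 : ℝ)..1, f y * (∫ x in y..1, k x)) =
        - ∫ y in (0 : ℝ)..1, f y * (∫ x in (1 : ℝ)..y, k x) := by
      rw [← intervalIntegral.integral_neg]
      refine intervalIntegral.integral_congr fun y _ => ?_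
      rw [hK]
      ring
    rw [this]
    linarith
  · filter_upwards [A_der hm h0 h1, hk.der] with y hy hy2 _
    exact hy.mul (hy2 1)

end Pool.Agent.Q117.SA
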