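import Mathlib

/-!
# Pattern densities of 0/1-valued limit objects: definitions and the recursion for simplex integrals
-/

namespace Pool.Agent.Q117.SA

open MeasureTheory Set

/-- The factor of the letter `b`: `f` for the letter `1` (`true`) and `1 - f` for `0` (`false`). -/
def g (f : ℝ → ℝ) (b : Bool) (x : ℝ) : ℝ := if b then f x else 1 - f x

/-- Strictly increasing `n`-tuples of elements of `s`. -/
def T (n : ℕ) (s : Set ℝ) : Set (Fin n → ℝ) := {x | StrictMono x ∧ ∀ i, x i ∈ s}

/-- `∫ ∏ g_i(x_i)` over the increasing tuples of elements of `s`. -/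
noncomputable def J (w : List Bool) (f : ℝ → ℝ) (s : Set ℝ) : ℝ :=
  ∫ x in T w.length s, ∏ i, g f (w.get i) (x i)

/-- The density of the word `w` for the function `f`. -/
noncomputable def dens (w : List Bool) (f : ℝ → ℝ) : ℝ :=
  (w.length.factorial : ℝ) * J w f (Icc 0 1)

theorem measurableSet_T (n : ℕ) {s : Set ℝ} (hs : MeasurableSet s) : MeasurableSet (T n s) := by
  have h : T n s = (⋂ i : Fin n, ⋂ j : Fin n, {x | i < j → x i < x j}) ∩ ⋂ i, {x | x i ∈ s} := by
    ext x
    simp only [T, mem_ofPred_eq, mem_inter_iff, mem_iInter]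
    constructor
    · rintro ⟨h1, h2⟩
      exact ⟨fun i j hij => h1 hij, h2⟩
    · rintro ⟨h1, h2⟩
      exact ⟨fun i j hij => h1 i j hij, h2⟩
  rw [h]
  refine MeasurableSet.inter ?_ ?_
  · refine MeasurableSet.iInter fun i => MeasurableSet.iInter fun j => ?_
    by_cases hij : i < j
    · simp only [hij, true_imp_iff]
      exact measurableSet_lt (measurable_pi_apply i) (measurable_pi_apply j)
    · simp only [hij, false_imp_iff, ofPred_true]
      exact MeasurableSet.univ
  · exact MeasurableSet.iInter fun i => measurable_pi_apply i hs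

theorem T_subset (n : ℕ) {s : Set ℝ} (hs : s ⊆ Icc 0 1) :
    T n s ⊆ Set.pi univ (fun _ : Fin n => Icc (0 : ℝ) 1) := by
  intro x hx i _
  exact hs (hx.2 i)

theorem volume_T_lt (n : ℕ) {s : Set ℝ} (hs : s ⊆ Icc 0 1) : volume (T n s) < ⊤ := by
  refine lt_of_le_of_lt (measure_mono (T_subset n hs)) ?_
  rw [volume_pi_pi]
  simp

theorem mem_T_cons (n : ℕ) (s : Set ℝ) (y : ℝ) (x : Fin n → ℝ) :
    (Fin.cons y x : Fin (n + 1) → ℝ) ∈ T (n + 1) s ↔ y ∈ s ∧ x ∈ T n (s ∩ Ioi y) := by
  constructor
  · rintro ⟨h1, h2⟩
    refine ⟨by simpa using h2 0, ?_, fun i => ⟨by simpa using h2 i.succ, ?_⟩⟩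
    · intro i j hij
      have := h1 (Fin.succ_lt_succ_iff.2 hij)
      simpa using this
    · have := h1 (Fin.succ_pos i)
      simpa using this
  · rintro ⟨h1, h2, h3⟩
    refine ⟨?_, ?_⟩
    · intro i j hij
      induction i using Fin.cases with
      | zero =>
        induction j using Fin.cases with
        | zero => exact absurd hij (lt_irrefl _)
        | succ j => simpa using (h3 j).2
      | succ i =>
        induction j using Fin.cases with
        | zero => exact absurd hij (by simp)
        | succ j =>
          have := h2 (Fin.succ_lt_succ_iff.1 hij)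
          simpa using this
    · intro i
      induction i using Fin.cases with
      | zero => simpa using h1
      | succ i => simpa using (h3 i).1

theorem int_succ (n : ℕ) {s : Set ℝ} (hs : MeasurableSet s) (hs' : s ⊆ Icc 0 1)
    (h : Fin (n + 1) → ℝ → ℝ) (hm : ∀ i, Measurable (h i)) (hb : ∀ i x, |h i x| ≤ 1) :
    ∫ x in T (n + 1) s, ∏ i, h i (x i) =
      ∫ y in s, h 0 y * ∫ x in T n (s ∩ Ioi y), ∏ i : Fin n, h i.succ (x i) := by
  classical
  have hFm : Measurable (fun x : Fin (n + 1) → ℝ => ∏ i, h i (x i)) :=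
    Finset.measurable_prod _ fun i _ => (hm i).comp (measurable_pi_apply i)
  have hFb : ∀ x : Fin (n + 1) → ℝ, ‖∏ i, h i (x i)‖ ≤ 1 := by
    intro x
    rw [Real.norm_eq_abs, Finset.abs_prod]
    exact Finset.prod_le_one (fun i _ => abs_nonneg _) fun i _ => hb i _
  set F : (Fin (n + 1) → ℝ) → ℝ := (T (n + 1) s).indicator (fun x => ∏ i, h i (x i)) with hF
  have hFi : Integrable F volume := by
    rw [hF, integrable_indicator_iff (measurableSet_T _ hs)]
    exact Measure.integrableOn_of_bounded (volume_T_lt _ hs').ne hFm.aestronglyMeasurable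
      (Filter.Eventually.of_forall hFb)
  have e := volume_preserving_piFinSuccAbove (fun _ : Fin (n + 1) => ℝ) 0
  have h1 : ∫ x in T (n + 1) s, ∏ i, h i (x i) = ∫ z : ℝ × (Fin n → ℝ), F (Fin.cons z.1 z.2) := by
    rw [← integral_indicator (measurableSet_T _ hs)]
    rw [← hF, ← e.symm.integral_comp' (g := F)]
    refine integral_congr_ae (Filter.Eventually.of_forall fun z => ?_)
    simp [MeasurableEquiv.piFinSuccAbove, Fin.insertNthEquiv]
  have hFi2 : Integrable (fun z : ℝ × (Fin n → ℝ) => F (Fin.cons z.1 z.2)) volume := by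
    have := (e.symm.integrable_comp_emb (MeasurableEquiv.measurableEmbedding _) (g := F)).2 hFi
    refine this.congr (Filter.Eventually.of_forall fun z => ?_)
    simp [MeasurableEquiv.piFinSuccAbove, Fin.insertNthEquiv]
  rw [h1, Measure.volume_eq_prod, integral_prod _ (by rw [← Measure.volume_eq_prod]; exact hFi2)]
  rw [← integral_indicator hs]
  refine integral_congr_ae (Filter.Eventually.of_forall fun y => ?_)
  simp only
  by_cases hy : y ∈ s
  · rw [indicator_of_mem hy]
    rw [← integral_const_mul]
    rw [← integral_indicator (measurableSet_T _ (hs.inter measurableSet_Ioi))]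
    refine integral_congr_ae (Filter.Eventually.of_forall fun x => ?_)
    simp only [hF]
    by_cases hx : x ∈ T n (s ∩ Ioi y)
    · rw [indicator_of_mem hx, indicator_of_mem ((mem_T_cons n s y x).2 ⟨hy, hx⟩)]
      rw [Fin.prod_univ_succ]
      simp
    · rw [indicator_of_notMem hx, indicator_of_notMem]
      intro h
      exact hx ((mem_T_cons n s y x).1 h).2
  · rw [indicator_of_notMem hy]
    have : ∀ x : Fin n → ℝ, F (Fin.cons y x) = 0 := by
      intro x
      simp only [hF]
      rw [indicator_of_notMem]
      intro h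
      exact hy ((mem_T_cons n s y x).1 h).1
    simp [this]

theorem J_nil (f : ℝ → ℝ) (s : Set ℝ) : J [] f s = 1 := by
  unfold J
  have h : T ([] : List Bool).length s = univ := by
    ext x
    simp only [T, mem_ofPred_eq, mem_univ, iff_true]
    exact ⟨fun i => i.elim0, fun i => i.elim0⟩
  rw [h]
  have h2 : (volume : Measure (Fin ([] : List Bool).length → ℝ)) univ = 1 := by
    haveI : IsEmpty (Fin ([] : List Bool).length) := inferInstanceAs (IsEmpty (Fin 0))
    rw [volume_pi, Measure.pi_univ]
    exact Finset.prod_of_isEmpty _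
  haveI : IsEmpty (Fin ([] : List Bool).length) := inferInstanceAs (IsEmpty (Fin 0))
  have h3 : ∀ x : Fin ([] : List Bool).length → ℝ, ∏ i, g f (([] : List Bool).get i) (x i) = 1 :=
    fun x => Finset.prod_of_isEmpty _
  rw [setIntegral_univ]
  simp only [h3]
  rw [integral_const, smul_eq_mul, mul_one, Measure.real, h2]
  rfl

theorem J_cons (b : Bool) (w : List Bool) (f : ℝ → ℝ) (hf : Measurable f)
    (hf0 : ∀ x, 0 ≤ f x) (hf1 : ∀ x, f x ≤ 1) {s : Set ℝ} (hs : MeasurableSet s)
    (hs' : s ⊆ Icc 0 1) :
    J (b :: w) f s = ∫ y in s, g f b y * J w f (s ∩ Ioi y) := by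
  unfold J
  have := int_succ w.length hs hs' (fun i x => g f ((b :: w).get i) x) ?_ ?_
  · exact this
  · intro i
    unfold g
    cases (b :: w).get i
    · simp only [Bool.false_eq_true, if_false]
      exact measurable_const.sub hf
    · simp only [if_true]
      exact hf
  · intro i x
    unfold g
    rw [abs_le]
    cases (b :: w).get i
    · simp only [Bool.false_eq_true, if_false]
      constructor <;> linarith [hf0 x, hf1 x]
    · simp only [if_true]
      constructor <;> linarith [hf0 x, hf1 x]

end Pool.Agent.Q117.SA
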