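import Pool.Agent.Q117.SA.Form

namespace Pool.Agent.Q117.SA

open MeasureTheory Set

/-- The square root in the extremal function. -/
noncomputable def sq (κ x : ℝ) : ℝ := Real.sqrt ((x - 1 / 2) ^ 2 + 4 * κ)

/-- The extremal function. -/
noncomputable def fk (κ x : ℝ) : ℝ :=
  if x < 2 * κ then 1 else if x < 1 - 2 * κ then (1 + (x - 1 / 2) / sq κ x) / 2 else 0

variable {κ : ℝ} (hκ : 0 < κ) (hκ' : κ < 1 / 4)

include hκ

theorem sq_pos (x : ℝ) : 0 < sq κ x := Real.sqrt_pos.2 (by positivity)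

theorem sq_sq (x : ℝ) : sq κ x ^ 2 = (x - 1 / 2) ^ 2 + 4 * κ := Real.sq_sqrt (by positivity)

theorem abs_lt_sq (x : ℝ) : |x - 1 / 2| < sq κ x := by
  refine Real.lt_sqrt_of_sq_lt ?_
  rw [sq_abs]
  linarith

theorem fk_meas : Measurable (fk κ) := by
  unfold fk
  refine Measurable.ite measurableSet_Iio measurable_const ?_
  refine Measurable.ite measurableSet_Iio ?_ measurable_const
  have : Measurable (sq κ) := by
    unfold sq
    fun_prop
  fun_prop

theorem quot_le (x : ℝ) : (x - 1 / 2) / sq κ x ≤ 1 := by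
  rw [div_le_one (sq_pos hκ x)]
  exact (le_abs_self _).trans (abs_lt_sq hκ x).le

theorem le_quot (x : ℝ) : -1 ≤ (x - 1 / 2) / sq κ x := by
  rw [le_div_iff₀ (sq_pos hκ x)]
  have := (neg_abs_le (x - 1 / 2)).trans' (neg_le_neg (abs_lt_sq hκ x).le)
  linarith

theorem fk_nonneg (x : ℝ) : 0 ≤ fk κ x := by
  unfold fk
  split_ifs
  · exact zero_le_one
  · have := le_quot hκ x
    linarith
  · exact le_rfl

theorem fk_le (x : ℝ) : fk κ x ≤ 1 := by
  unfold fk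
  split_ifs
  · exact le_rfl
  · have := quot_le hκ x
    linarith
  · exact zero_le_one

theorem sq_der (x : ℝ) : HasDerivAt (sq κ) ((x - 1 / 2) / sq κ x) x := by
  have h1 : HasDerivAt (fun y : ℝ => (y - 1 / 2) ^ 2 + 4 * κ) (2 * (x - 1 / 2)) x := by
    have := (((hasDerivAt_id x).sub_const (1 / 2 : ℝ)).pow 2).add_const (4 * κ)
    refine this.congr_deriv ?_
    simp
  have := h1.sqrt (by positivity)
  refine this.congr_deriv ?_
  unfold sq
  have : Real.sqrt ((x - 1 / 2) ^ 2 + 4 * κ) ≠ 0 := (sq_pos hκ x).ne'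
  field_simp

theorem sq_cont : Continuous (sq κ) := by
  unfold sq
  fun_prop

theorem log4 : Real.log (4 * κ) = Real.log 2 + Real.log (2 * κ) := by
  rw [← Real.log_mul (by norm_num) (by positivity)]
  congr 1
  ring

theorem A1 {x : ℝ} (hx : 0 ≤ x) (hx2 : x ≤ 2 * κ) : A (fk κ) x = x := by
  unfold A
  have : ∫ t in (0 : ℝ)..x, fk κ t = ∫ t in (0 : ℝ)..x, (1 : ℝ) := by
    refine intervalIntegral.integral_congr_ae ?_
    have hb : ∀ᵐ t : ℝ, t ≠ x := by
      rw [ae_iff]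
      simp
    filter_upwards [hb] with t ht ht2
    rw [uIoc_of_le hx] at ht2
    have : t < 2 * κ := (lt_of_le_of_ne ht2.2 ht).trans_le hx2
    unfold fk
    rw [if_pos this]
  rw [this]
  simp

include hκ'

theorem A2 {x : ℝ} (hx : 2 * κ ≤ x) (hx2 : x ≤ 1 - 2 * κ) :
    A (fk κ) x = ((x - 1 / 2) + sq κ x) / 2 := by
  have e : A (fk κ) x = A (fk κ) (2 * κ) + ∫ t in (2 * κ)..x, fk κ t := by
    unfold A
    rw [intervalIntegral.integral_add_adjacent_intervals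
      ((bf (fk_meas hκ) (fk_nonneg hκ) (fk_le hκ)).ii _ _)
      ((bf (fk_meas hκ) (fk_nonneg hκ) (fk_le hκ)).ii _ _)]
  rw [e, A1 hκ (by linarith) le_rfl]
  have e2 : ∫ t in (2 * κ)..x, fk κ t =
      ∫ t in (2 * κ)..x, (1 + (t - 1 / 2) / sq κ t) / 2 := by
    refine intervalIntegral.integral_congr_ae ?_
    have hb : ∀ᵐ t : ℝ, t ≠ x := by
      rw [ae_iff]
      simp
    filter_upwards [hb] with t ht ht2
    rw [uIoc_of_le hx] at ht2
    have h1 : ¬ t < 2 * κ := not_lt.2 ht2.1.le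
    have h2 : t < 1 - 2 * κ := (lt_of_le_of_ne ht2.2 ht).trans_le hx2
    unfold fk
    rw [if_neg h1, if_pos h2]
  rw [e2, intervalIntegral.integral_eq_sub_of_hasDerivAt
    (f := fun t => ((t - 1 / 2) + sq κ t) / 2)]
  · have : sq κ (2 * κ) = 1 / 2 + 2 * κ := by
      unfold sq
      rw [show (2 * κ - 1 / 2) ^ 2 + 4 * κ = (1 / 2 + 2 * κ) ^ 2 by ring]
      exact Real.sqrt_sq (by linarith)
    rw [this]
    ring
  · intro t _
    have := (((hasDerivAt_id t).sub_const (1 / 2 : ℝ)).add (sq_der hκ t)).div_const 2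
    exact this
  · refine Continuous.intervalIntegrable ?_ _ _
    have := sq_cont hκ
    have h2 : ∀ x, sq κ x ≠ 0 := fun x => (sq_pos hκ x).ne'
    fun_prop (disch := assumption)

theorem sq_end : sq κ (1 - 2 * κ) = 1 / 2 + 2 * κ := by
  unfold sq
  rw [show (1 - 2 * κ - 1 / 2) ^ 2 + 4 * κ = (1 / 2 + 2 * κ) ^ 2 by ring]
  exact Real.sqrt_sq (by linarith)

theorem A_end : A (fk κ) (1 - 2 * κ) = 1 / 2 := by
  rw [A2 hκ hκ' (by linarith) le_rfl, sq_end hκ hκ']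
  ring

theorem fk_last {x : ℝ} (hx : 1 - 2 * κ ≤ x) : fk κ x = 0 := by
  unfold fk
  rw [if_neg (by linarith), if_neg (by linarith)]

theorem A_one : A (fk κ) 1 = 1 / 2 := by
  have e : A (fk κ) 1 = A (fk κ) (1 - 2 * κ) + ∫ t in (1 - 2 * κ)..1, fk κ t := by
    unfold A
    rw [intervalIntegral.integral_add_adjacent_intervals
      ((bf (fk_meas hκ) (fk_nonneg hκ) (fk_le hκ)).ii _ _)
      ((bf (fk_meas hκ) (fk_nonneg hκ) (fk_le hκ)).ii _ _)]
  have e2 : ∫ t in (1 - 2 * κ)..1, fk κ t = ∫ t in (1 - 2 * κ)..1, (0 : ℝ) := by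
    refine intervalIntegral.integral_congr fun t ht => ?_
    rw [uIcc_of_le (by linarith)] at ht
    exact fk_last hκ hκ' ht.1
  rw [e, A_end hκ hκ', e2]
  simp

theorem Z_k (x : ℝ) : Z (fk κ) x = A (fk κ) x - x + 1 / 2 := by
  have := A_add_Z (fk_meas hκ) (fk_nonneg hκ) (fk_le hκ) x
  rw [A_one hκ hκ'] at this
  linarith

theorem AZ {x : ℝ} (hx : 2 * κ ≤ x) (hx2 : x ≤ 1 - 2 * κ) :
    A (fk κ) x * Z (fk κ) x = κ := by
  rw [Z_k hκ hκ', A2 hκ hκ' hx hx2]
  have := sq_sq hκ x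
  nlinarith

theorem A_pos {x : ℝ} (hx : 2 * κ ≤ x) : 0 < A (fk κ) x := by
  have := A_mono (fk_meas hκ) (fk_nonneg hκ) (fk_le hκ) hx
  rw [A1 hκ (by linarith) le_rfl] at this
  linarith

theorem split3 {k : ℝ → ℝ} (hk : Bdd k) :
    ∫ x in (0 : ℝ)..1, k x = (∫ x in (0 : ℝ)..(2 * κ), k x) +
      (∫ x in (2 * κ)..(1 - 2 * κ), k x) + ∫ x in (1 - 2 * κ)..1, k x := by
  rw [intervalIntegral.integral_add_adjacent_intervals (hk.ii _ _) (hk.ii _ _),
    intervalIntegral.integral_add_adjacent_intervals (hk.ii _ _) (hk.ii _ _)]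

theorem int1 : ∫ x in (0 : ℝ)..1, fk κ x * Z (fk κ) x = κ * (1 - Real.log (4 * κ)) := by
  have hb := bf (fk_meas hκ) (fk_nonneg hκ) (fk_le hκ)
  rw [split3 hκ hκ' (hb.mulc (Z_cont (fk_meas hκ) (fk_nonneg hκ) (fk_le hκ)))]
  have e1 : ∫ x in (0 : ℝ)..(2 * κ), fk κ x * Z (fk κ) x = ∫ x in (0 : ℝ)..(2 * κ), (1 / 2 : ℝ) := by
    refine intervalIntegral.integral_congr_ae ?_
    have hb : ∀ᵐ t : ℝ, t ≠ 2 * κ := by
      rw [ae_iff]
      simp
    filter_upwards [hb] with t ht ht2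
    rw [uIoc_of_le (by linarith)] at ht2
    have h3 : t < 2 * κ := (lt_of_le_of_ne ht2.2 ht)
    rw [Z_k hκ hκ', A1 hκ ht2.1.le ht2.2]
    unfold fk
    rw [if_pos h3]
    ring
  have e2 : ∫ x in (2 * κ)..(1 - 2 * κ), fk κ x * Z (fk κ) x =
      κ * (Real.log (1 / 2) - Real.log (2 * κ)) := by
    have := int_log (fk_meas hκ) (fk_nonneg hκ) (fk_le hκ) (c := 2 * κ) (d := 1 - 2 * κ)
      (by linarith) (A_pos hκ hκ' le_rfl) κ
    rw [A_end hκ hκ', A1 hκ (by linarith) le_rfl] at this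
    rw [← this]
    refine intervalIntegral.integral_congr fun x hx => ?_
    rw [uIcc_of_le (by linarith)] at hx
    have h4 := AZ hκ hκ' hx.1 hx.2
    have h5 := A_pos hκ hκ' hx.1
    have : Z (fk κ) x = κ / A (fk κ) x := by
      rw [eq_div_iff h5.ne', mul_comm]
      exact h4
    rw [this]
  have e3 : ∫ x in (1 - 2 * κ)..1, fk κ x * Z (fk κ) x = ∫ x in (1 - 2 * κ)..1, (0 : ℝ) := by
    refine intervalIntegral.integral_congr fun t ht => ?_
    rw [uIcc_of_le (by linarith)] at ht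
    beta_reduce
    rw [fk_last hκ hκ' ht.1, zero_mul]
  rw [e1, e2, e3]
  simp only [intervalIntegral.integral_const, smul_eq_mul, mul_zero, add_zero]
  have hhalf : Real.log (1 / 2) = - Real.log 2 := by rw [one_div, Real.log_inv]
  rw [log4 hκ, hhalf]
  ring

theorem int2 : ∫ x in (0 : ℝ)..1, fk κ x * (A (fk κ) x * Z (fk κ) x ^ 2) =
    κ ^ 2 * (1 / 2 - Real.log (4 * κ)) := by
  have hb := bf (fk_meas hκ) (fk_nonneg hκ) (fk_le hκ)
  have hb2 : Bdd (fun x => fk κ x * (A (fk κ) x * Z (fk κ) x ^ 2)) :=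
    hb.mulc ((A_cont (fk_meas hκ) (fk_nonneg hκ) (fk_le hκ)).mul
    ((Z_cont (fk_meas hκ) (fk_nonneg hκ) (fk_le hκ)).pow 2))
  rw [split3 hκ hκ' hb2]
  have e1 : ∫ x in (0 : ℝ)..(2 * κ), fk κ x * (A (fk κ) x * Z (fk κ) x ^ 2) =
      ∫ x in (0 : ℝ)..(2 * κ), (1 / 4 : ℝ) * x := by
    refine intervalIntegral.integral_congr_ae ?_
    have hb : ∀ᵐ t : ℝ, t ≠ 2 * κ := by
      rw [ae_iff]
      simp
    filter_upwards [hb] with t ht ht2
    rw [uIoc_of_le (by linarith)] at ht2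
    have h3 : t < 2 * κ := (lt_of_le_of_ne ht2.2 ht)
    rw [Z_k hκ hκ', A1 hκ ht2.1.le ht2.2]
    unfold fk
    rw [if_pos h3]
    ring
  have e2 : ∫ x in (2 * κ)..(1 - 2 * κ), fk κ x * (A (fk κ) x * Z (fk κ) x ^ 2) =
      κ ^ 2 * (Real.log (1 / 2) - Real.log (2 * κ)) := by
    have := int_log (fk_meas hκ) (fk_nonneg hκ) (fk_le hκ) (c := 2 * κ) (d := 1 - 2 * κ)
      (by linarith) (A_pos hκ hκ' le_rfl) (κ ^ 2)
    rw [A_end hκ hκ', A1 hκ (by linarith) le_rfl] at this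
    rw [← this]
    refine intervalIntegral.integral_congr fun x hx => ?_
    rw [uIcc_of_le (by linarith)] at hx
    have h4 := AZ hκ hκ' hx.1 hx.2
    have h5 := A_pos hκ hκ' hx.1
    have : A (fk κ) x * Z (fk κ) x ^ 2 = κ ^ 2 / A (fk κ) x := by
      rw [eq_div_iff h5.ne']
      calc A (fk κ) x * Z (fk κ) x ^ 2 * A (fk κ) x = (A (fk κ) x * Z (fk κ) x) ^ 2 := by ring
        _ = κ ^ 2 := by rw [h4]
    rw [this]
  have e3 : ∫ x in (1 - 2 * κ)..1, fk κ x * (A (fk κ) x * Z (fk κ) x ^ 2) =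
      ∫ x in (1 - 2 * κ)..1, (0 : ℝ) := by
    refine intervalIntegral.integral_congr fun t ht => ?_
    rw [uIcc_of_le (by linarith)] at ht
    beta_reduce
    rw [fk_last hκ hκ' ht.1, zero_mul]
  rw [e1, e2, e3]
  rw [intervalIntegral.integral_const_mul, integral_id]
  simp only [intervalIntegral.integral_const, smul_eq_mul, mul_zero, add_zero]
  have hhalf : Real.log (1 / 2) = - Real.log 2 := by rw [one_div, Real.log_inv]
  rw [log4 hκ, hhalf]
  ring

theorem dens1 : dens [true, false] (fk κ) = 2 * κ * (1 - Real.log (4 * κ)) := by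
  rw [dens_tf (fk_meas hκ) (fk_nonneg hκ) (fk_le hκ), int1 hκ hκ']
  ring

theorem dens2 : dens [true, true, false, false] (fk κ) =
    6 * κ ^ 2 * (1 - 2 * Real.log (4 * κ)) := by
  rw [dens_ttff (fk_meas hκ) (fk_nonneg hκ) (fk_le hκ), int2 hκ hκ']
  ring

end Pool.Agent.Q117.SA
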