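import Pool.Agent.Q117.SA.Anal

namespace Pool.Agent.Q117.SA

open MeasureTheory Set

variable {f : ℝ → ℝ} (hm : Measurable f) (h0 : ∀ x, 0 ≤ f x) (h1 : ∀ x, f x ≤ 1)

theorem Icc_inter {y : ℝ} (hy : 0 ≤ y) : Icc (0 : ℝ) 1 ∩ Ioi y = Ioc y 1 := by
  ext x
  simp only [mem_inter_iff, mem_Icc, mem_Ioi, mem_Ioc]
  constructor
  · rintro ⟨⟨_, h2⟩, h3⟩
    exact ⟨h3, h2⟩
  · rintro ⟨h1, h2⟩
    exact ⟨⟨hy.trans h1.le, h2⟩, h1⟩

theorem Ioc_inter {x y : ℝ} (hx : y ≤ x) : Ioc y 1 ∩ Ioi x = Ioc x 1 := by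
  ext z
  simp only [mem_inter_iff, mem_Ioi, mem_Ioc]
  constructor
  · rintro ⟨⟨_, h2⟩, h3⟩
    exact ⟨h3, h2⟩
  · rintro ⟨h1, h2⟩
    exact ⟨⟨lt_of_le_of_lt hx h1, h2⟩, h1⟩

theorem Ioc_sub {y : ℝ} (hy : 0 ≤ y) : Ioc y 1 ⊆ Icc (0 : ℝ) 1 :=
  fun _ hx => ⟨hy.trans hx.1.le, hx.2⟩

include hm h0 h1

theorem J_Ioc (b : Bool) (w : List Bool) {y : ℝ} (hy : 0 ≤ y) (hy1 : y ≤ 1) :
    J (b :: w) f (Ioc y 1) = ∫ x in y..1, g f b x * J w f (Ioc x 1) := by
  rw [J_cons b w f hm h0 h1 measurableSet_Ioc (Ioc_sub hy), intervalIntegral.integral_of_le hy1]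
  refine setIntegral_congr_fun measurableSet_Ioc fun x hx => ?_
  rw [Ioc_inter hx.1.le]

theorem J_Icc (b : Bool) (w : List Bool) :
    J (b :: w) f (Icc 0 1) = ∫ x in (0 : ℝ)..1, g f b x * J w f (Ioc x 1) := by
  rw [J_cons b w f hm h0 h1 measurableSet_Icc (Subset.refl _),
    intervalIntegral.integral_of_le zero_le_one, ← integral_Icc_eq_integral_Ioc]
  refine setIntegral_congr_fun measurableSet_Icc fun x hx => ?_
  rw [Icc_inter hx.1]

theorem J_f {y : ℝ} (hy : 0 ≤ y) (hy1 : y ≤ 1) : J [false] f (Ioc y 1) = Z f y := by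
  rw [J_Ioc hm h0 h1 _ _ hy hy1]
  unfold Z
  refine intervalIntegral.integral_congr fun x _ => ?_
  rw [J_nil, mul_one]
  rfl

theorem J_ff {y : ℝ} (hy : 0 ≤ y) (hy1 : y ≤ 1) : J [false, false] f (Ioc y 1) = Z f y ^ 2 / 2 := by
  rw [J_Ioc hm h0 h1 _ _ hy hy1, ← int_Z hm h0 h1 hy1]
  refine intervalIntegral.integral_congr fun x hx => ?_
  rw [uIcc_of_le hy1] at hx
  rw [J_f hm h0 h1 (hy.trans hx.1) hx.2]
  rfl

theorem J_tff {y : ℝ} (hy : 0 ≤ y) (hy1 : y ≤ 1) :
    J [true, false, false] f (Ioc y 1) = ∫ x in y..1, f x * (Z f x ^ 2 / 2) := by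
  rw [J_Ioc hm h0 h1 _ _ hy hy1]
  refine intervalIntegral.integral_congr fun x hx => ?_
  rw [uIcc_of_le hy1] at hx
  rw [J_ff hm h0 h1 (hy.trans hx.1) hx.2]
  rfl

/-- The density of `10`. -/
theorem dens_tf : dens [true, false] f = 2 * ∫ x in (0 : ℝ)..1, f x * Z f x := by
  unfold dens
  rw [J_Icc hm h0 h1]
  have : (([true, false].length.factorial : ℕ) : ℝ) = 2 := by norm_num [Nat.factorial]
  rw [this]
  congr 1
  refine intervalIntegral.integral_congr fun x hx => ?_
  rw [uIcc_of_le zero_le_one] at hx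
  rw [J_f hm h0 h1 hx.1 hx.2]
  rfl

/-- The density of `1100`. -/
theorem dens_ttff :
    dens [true, true, false, false] f = 12 * ∫ x in (0 : ℝ)..1, f x * (A f x * Z f x ^ 2) := by
  unfold dens
  rw [J_Icc hm h0 h1]
  have : (([true, true, false, false].length.factorial : ℕ) : ℝ) = 24 := by
    norm_num [Nat.factorial]
  rw [this]
  have e1 : ∫ x in (0 : ℝ)..1, g f true x * J [true, false, false] f (Ioc x 1) =
      ∫ y in (0 : ℝ)..1, f y * (∫ x in y..1, f x * (Z f x ^ 2 / 2)) := by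
    refine intervalIntegral.integral_congr fun x hx => ?_
    rw [uIcc_of_le zero_le_one] at hx
    rw [J_tff hm h0 h1 hx.1 hx.2]
    rfl
  have hk : Bdd (fun x => f x * (Z f x ^ 2 / 2)) :=
    (bf hm h0 h1).mulc (((Z_cont hm h0 h1).pow 2).div_const 2)
  rw [e1, parts hm h0 h1 hk, ← intervalIntegral.integral_const_mul,
    ← intervalIntegral.integral_const_mul]
  refine intervalIntegral.integral_congr fun x _ => ?_
  ring

theorem A_one_le : A f 1 ≤ 1 := by
  have := A_sub_le hm h0 h1 (zero_le_one' ℝ)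
  rw [A_zero] at this
  linarith

/-- `∫_c^d f / A = log A(d) - log A(c)`. -/
theorem int_log {c d : ℝ} (hcd : c ≤ d) (hAcpos : 0 < A f c) (C : ℝ) :
    ∫ x in c..d, f x * (C / A f x) = C * (Real.log (A f d) - Real.log (A f c)) := by
  have hApos : ∀ x, c ≤ x → 0 < A f x := fun x hx => hAcpos.trans_le (A_mono hm h0 h1 hx)
  have hlip : LipschitzOnWith (Real.toNNReal (A f c)⁻¹) (fun x => Real.log (A f x)) (uIcc c d) := by
    rw [uIcc_of_le hcd]
    refine LipschitzOnWith.of_le_add_mul _ ?_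
    intro x hx y hy
    rw [Real.coe_toNNReal _ (inv_nonneg.2 hAcpos.le)]
    have px := hApos x hx.1
    have py := hApos y hy.1
    have l1 : Real.log (A f x) - Real.log (A f y) ≤ A f x / A f y - 1 := by
      rw [← Real.log_div px.ne' py.ne']
      exact Real.log_le_sub_one_of_pos (div_pos px py)
    have l2 : A f x / A f y - 1 = (A f x - A f y) * (A f y)⁻¹ := by
      field_simp
    have l3 : (A f x - A f y) * (A f y)⁻¹ ≤ dist x y * (A f c)⁻¹ := by
      have d1 : A f x - A f y ≤ dist x y := by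
        rw [Real.dist_eq]
        rcases le_total x y with h | h
        · exact (sub_nonpos.2 (A_mono hm h0 h1 h)).trans (abs_nonneg _)
        · exact (A_sub_le hm h0 h1 h).trans (le_abs_self _)
      calc (A f x - A f y) * (A f y)⁻¹ ≤ dist x y * (A f y)⁻¹ :=
            mul_le_mul_of_nonneg_right d1 (inv_nonneg.2 py.le)
        _ ≤ dist x y * (A f c)⁻¹ := by
            refine mul_le_mul_of_nonneg_left ?_ dist_nonneg
            exact inv_anti₀ hAcpos (A_mono hm h0 h1 hy.1)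
    linarith [mul_comm (dist x y) (A f c)⁻¹]
  have hac : AbsolutelyContinuousOnInterval
      (fun x => C * (fun x => Real.log (A f x)) x) c d :=
    hlip.absolutelyContinuousOnInterval.const_mul _
  rw [ftc hcd hac (F' := fun x => f x * (C / A f x))]
  · simp only
    ring
  · filter_upwards [A_der hm h0 h1] with x hx hx2
    have := (hx.log (hApos x hx2.1.le).ne').const_mul C
    refine this.congr_deriv ?_
    ring

/-- The main inequality. -/
theorem main_ineq {κ : ℝ} (hκ : 0 < κ) (hκ' : κ ≤ 1 / 4) :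
    κ ^ 2 * Real.log (4 * κ) - 3 / 2 * κ ^ 2 ≤
      (∫ x in (0 : ℝ)..1, f x * (A f x * Z f x ^ 2)) - 2 * κ * ∫ x in (0 : ℝ)..1, f x * Z f x := by
  set ρ := A f 1 with hρ
  set z := Z f 0 with hz
  have hzρ : z = 1 - ρ := Z_zero hm h0 h1
  have hρ0 : 0 ≤ ρ := A_nonneg hm h0 h1 zero_le_one
  have hz0 : 0 ≤ z := Z_nonneg hm h0 h1 zero_le_one
  have hP : ρ * z ≤ 1 / 4 := by rw [hzρ]; nlinarith [sq_nonneg (ρ - 1 / 2)]
  have hlog : Real.log (4 * κ) ≤ 0 := Real.log_nonpos (by linarith) (by linarith)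
  -- combine the integrals
  have iAZ : ∀ a b : ℝ, IntervalIntegrable (fun x => f x * (A f x * Z f x ^ 2)) volume a b :=
    fun a b => ((bf hm h0 h1).mulc ((A_cont hm h0 h1).mul ((Z_cont hm h0 h1).pow 2))).ii a b
  have iZ : ∀ a b : ℝ, IntervalIntegrable (fun x => f x * Z f x) volume a b :=
    fun a b => ((bf hm h0 h1).mulc (Z_cont hm h0 h1)).ii a b
  have hcomb : ∀ a b : ℝ, (∫ x in a..b, f x * (A f x * Z f x ^ 2)) - 2 * κ * ∫ x in a..b, f x * Z f x
      = ∫ x in a..b, f x * (A f x * Z f x ^ 2 - 2 * κ * Z f x) := by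
    intro a b
    rw [← intervalIntegral.integral_const_mul, ← intervalIntegral.integral_sub (iAZ a b)
      ((iZ a b).const_mul _)]
    refine intervalIntegral.integral_congr fun x _ => ?_
    ring
  rw [hcomb]
  have iC : ∀ a b : ℝ, IntervalIntegrable
      (fun x => f x * (A f x * Z f x ^ 2 - 2 * κ * Z f x)) volume a b :=
    fun a b => ((bf hm h0 h1).mulc (((A_cont hm h0 h1).mul ((Z_cont hm h0 h1).pow 2)).sub
      (continuous_const.mul (Z_cont hm h0 h1)))).ii a b
  -- the first piece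
  have first : ∀ c : ℝ, 0 ≤ c → c ≤ 1 → A f c * z ≤ κ →
      1 / 2 * (A f c * z) ^ 2 - 2 * κ * (A f c * z) ≤
        ∫ x in (0 : ℝ)..c, f x * (A f x * Z f x ^ 2 - 2 * κ * Z f x) := by
    intro c hc0 hc1 hc
    have e : ∫ x in (0 : ℝ)..c, f x * (A f x * z ^ 2 - 2 * κ * z) =
        1 / 2 * (A f c * z) ^ 2 - 2 * κ * (A f c * z) := by
      have hac : AbsolutelyContinuousOnInterval
          ((fun x => (1 / 2 * z ^ 2) * (A f * A f) x) + fun x => (-(2 * κ * z)) * A f x) 0 c :=
        (((A_ac hm h0 h1 0 c).mul (A_ac hm h0 h1 0 c)).const_mul _).add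
          ((A_ac hm h0 h1 0 c).const_mul _)
      rw [ftc hc0 hac (F' := fun x => f x * (A f x * z ^ 2 - 2 * κ * z))]
      · simp only [Pi.add_apply, Pi.mul_apply]
        rw [A_zero]
        ring
      · filter_upwards [A_der hm h0 h1] with x hx _
        have := ((hx.mul hx).const_mul (1 / 2 * z ^ 2)).add (hx.const_mul (-(2 * κ * z)))
        refine this.congr_deriv ?_
        ring
    rw [← e]
    refine intervalIntegral.integral_mono_on hc0 ?_ (iC 0 c) ?_
    · exact ((bf hm h0 h1).mulc (((A_cont hm h0 h1).mul continuous_const).sub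
        continuous_const)).ii 0 c
    · intro x hx
      refine mul_le_mul_of_nonneg_left ?_ (h0 x)
      have a0 : 0 ≤ A f x := A_nonneg hm h0 h1 hx.1
      have a1 : A f x ≤ A f c := A_mono hm h0 h1 hx.2
      have z0 : 0 ≤ Z f x := Z_nonneg hm h0 h1 (hx.2.trans hc1)
      have z1 : Z f x ≤ z := Z_anti hm h0 h1 hx.1
      have haz : A f x * z ≤ κ := (mul_le_mul_of_nonneg_right a1 hz0).trans hc
      have haz2 : A f x * Z f x ≤ κ := (mul_le_mul_of_nonneg_left z1 a0).trans haz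
      nlinarith [mul_nonneg (sub_nonneg.2 z1) (by linarith : 0 ≤ 2 * κ - A f x * z - A f x * Z f x)]
  rcases le_or_gt (ρ * z) κ with hcase | hcase
  · have := first 1 zero_le_one le_rfl hcase
    refine le_trans ?_ this
    rw [← hρ]
    have : 0 ≤ (κ - ρ * z) * (3 * κ - ρ * z) :=
      mul_nonneg (by linarith) (by nlinarith)
    nlinarith [mul_nonneg (sq_nonneg κ) (neg_nonneg.2 hlog)]
  · have hzpos : 0 < z := by
      rcases hz0.lt_or_eq with h | h
      · exact h
      · rw [← h, mul_zero] at hcase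
        linarith
    have hρpos : 0 < ρ := by
      rcases hρ0.lt_or_eq with h | h
      · exact h
      · rw [← h, zero_mul] at hcase
        linarith
    have hmem : κ / z ∈ Icc (A f 0) (A f 1) := by
      rw [A_zero]
      refine ⟨by positivity, ?_⟩
      rw [div_le_iff₀ hzpos]
      exact hcase.le
    obtain ⟨c, hc, hAc⟩ := intermediate_value_Icc zero_le_one
      (A_cont hm h0 h1).continuousOn hmem
    have hAcz : A f c * z = κ := by
      rw [hAc]
      field_simp
    have hf1 := first c hc.1 hc.2 hAcz.le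
    rw [hAcz] at hf1
    have hAcpos : 0 < A f c := by rw [hAc]; positivity
    -- the second piece
    have second : -(κ ^ 2 * (Real.log ρ - Real.log (A f c))) ≤
        ∫ x in c..1, f x * (A f x * Z f x ^ 2 - 2 * κ * Z f x) := by
      have hApos : ∀ x, c ≤ x → 0 < A f x := fun x hx => hAcpos.trans_le (A_mono hm h0 h1 hx)
      have e : ∫ x in c..1, f x * (-κ ^ 2 / A f x) = -(κ ^ 2 * (Real.log ρ - Real.log (A f c))) := by
        rw [int_log hm h0 h1 hc.2 hAcpos, ← hρ]
        ring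
      rw [← e]
      refine intervalIntegral.integral_mono_on hc.2 ?_ (iC c 1) ?_
      · refine ((bf hm h0 h1).ii c 1).mul_continuousOn ?_
        refine ContinuousOn.div continuousOn_const (A_cont hm h0 h1).continuousOn ?_
        intro x hx
        rw [uIcc_of_le hc.2] at hx
        exact (hApos x hx.1).ne'
      · intro x hx
        refine mul_le_mul_of_nonneg_left ?_ (h0 x)
        have px := hApos x hx.1
        rw [div_le_iff₀ px]
        nlinarith [sq_nonneg (A f x * Z f x - κ)]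
    have hsplit : (∫ x in (0 : ℝ)..1, f x * (A f x * Z f x ^ 2 - 2 * κ * Z f x)) =
        (∫ x in (0 : ℝ)..c, f x * (A f x * Z f x ^ 2 - 2 * κ * Z f x)) +
        ∫ x in c..1, f x * (A f x * Z f x ^ 2 - 2 * κ * Z f x) :=
      (intervalIntegral.integral_add_adjacent_intervals (iC _ _) (iC _ _)).symm
    rw [hsplit]
    have hl : Real.log ρ - Real.log (A f c) ≤ - Real.log (4 * κ) := by
      rw [← Real.log_div hρpos.ne' hAcpos.ne', ← Real.log_inv]
      refine Real.log_le_log (by positivity) ?_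
      rw [hAc, div_div_eq_mul_div, div_le_iff₀ hκ]
      rw [mul_inv]
      have : (4 : ℝ)⁻¹ * κ⁻¹ * κ = 1 / 4 := by field_simp
      rw [this]
      exact hP
    nlinarith [mul_le_mul_of_nonneg_left hl (sq_nonneg κ)]

end Pool.Agent.Q117.SA
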