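import Mathlib

namespace Pool.Agent.Q117.SA

open Polynomial Filter Topology

theorem tend (S : ℝ[X][X]) :
    Tendsto (fun t : ℝ => Real.exp (-t) * evalEval t (Real.exp (-t)) S) atTop (𝓝 0) := by
  induction S using Polynomial.induction_on' with
  | add p q hp hq =>
    have := hp.add hq
    rw [add_zero] at this
    refine this.congr fun t => ?_
    rw [evalEval_add]
    ring
  | monomial j s =>
    have h1 := s.tendsto_div_exp_atTop
    have h2 : Tendsto (fun t : ℝ => Real.exp (-t) ^ j) atTop (𝓝 (0 ^ j)) :=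
      (Real.tendsto_exp_neg_atTop_nhds_zero).pow j
    have := h1.mul h2
    rw [zero_mul] at this
    refine this.congr fun t => ?_
    rw [← C_mul_X_pow_eq_monomial, evalEval_mul, evalEval_pow, evalEval_C, evalEval_X, Real.exp_neg]
    ring

theorem ind (n : ℕ) : ∀ R : ℝ[X][X], R.natDegree ≤ n →
    (∀ t : ℝ, 0 < t → evalEval t (Real.exp (-t)) R = 0) → R = 0 := by
  have key : ∀ R : ℝ[X][X], (∀ t : ℝ, 0 < t → evalEval t (Real.exp (-t)) R = 0) →
      R.coeff 0 = 0 := by
    intro R h
    have e : ∀ t : ℝ, evalEval t (Real.exp (-t)) R =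
        Real.exp (-t) * evalEval t (Real.exp (-t)) R.divX + (R.coeff 0).eval t := by
      intro t
      conv_lhs => rw [← divX_mul_X_add R]
      rw [evalEval_add, evalEval_mul, evalEval_X, evalEval_C]
      ring
    have h2 : Tendsto (fun t : ℝ => (R.coeff 0).eval t) atTop (𝓝 0) := by
      have := (tend R.divX).neg
      rw [neg_zero] at this
      refine this.congr' ?_
      filter_upwards [eventually_gt_atTop 0] with t ht
      have h3 := h t ht
      rw [e t] at h3
      linarith
    have := ((R.coeff 0).tendsto_nhds_iff).1 h2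
    exact leadingCoeff_eq_zero.1 this.1
  induction n with
  | zero =>
    intro R hR h
    have h1 := key R h
    rw [eq_C_of_natDegree_le_zero hR, h1, C_0]
  | succ n ih =>
    intro R hR h
    have h1 := key R h
    have h2 : R = R.divX * X := by
      conv_lhs => rw [← divX_mul_X_add R, h1, C_0, add_zero]
    have h3 : R.divX = 0 := by
      refine ih _ ?_ ?_
      · rw [natDegree_divX_eq_natDegree_tsub_one]
        omega
      · intro t ht
        have h4 := h t ht
        rw [h2, evalEval_mul, evalEval_X] at h4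
        exact (mul_eq_zero.1 h4).resolve_right (Real.exp_pos _).ne'
    rw [h2, h3, zero_mul]

/-- A polynomial vanishing on the curve is zero. -/
theorem curve (P : MvPolynomial (Fin 2) ℝ)
    (h : ∀ κ : ℝ, 0 < κ → κ < 1 / 4 → MvPolynomial.eval
      ![2 * κ * (1 - Real.log (4 * κ)), 6 * κ ^ 2 * (1 - 2 * Real.log (4 * κ))] P = 0) : P = 0 := by
  set G : Fin 2 → ℝ[X][X] := ![C (C (1 / 2)) * X * (1 + C X), C (C (3 / 8)) * X ^ 2 * (1 + 2 * C X)]
    with hG
  set R : ℝ[X][X] := MvPolynomial.eval₂ (algebraMap ℝ ℝ[X][X]) G P with hR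
  have ev : ∀ E t : ℝ, evalEval t E R =
      MvPolynomial.eval ![1 / 2 * E * (1 + t), 3 / 8 * E ^ 2 * (1 + 2 * t)] P := by
    intro E t
    have h1 : evalEval t E R = evalEvalRingHom t E R := rfl
    rw [h1, hR, MvPolynomial.hom_eval₂, MvPolynomial.eval]
    have h2 : (evalEvalRingHom t E).comp (algebraMap ℝ ℝ[X][X]) = RingHom.id ℝ := by
      ext a
      simp [evalEvalRingHom, Polynomial.algebraMap_apply, evalEval]
    have h3 : (fun i => evalEvalRingHom t E (G i)) =
        ![1 / 2 * E * (1 + t), 3 / 8 * E ^ 2 * (1 + 2 * t)] := by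
      funext i
      fin_cases i
      · simp [hG, evalEval]
      · simp [hG, evalEval]
    rw [h2]
    change MvPolynomial.eval₂ (RingHom.id ℝ) (fun i => evalEvalRingHom t E (G i)) P = _
    rw [h3]
    rfl
  have hR0 : R = 0 := by
    refine ind R.natDegree R le_rfl fun t ht => ?_
    rw [ev]
    have := h (Real.exp (-t) / 4) (by positivity) (by
      have := Real.exp_lt_exp.2 (neg_lt_zero.2 ht)
      rw [Real.exp_zero] at this
      linarith)
    rw [show 4 * (Real.exp (-t) / 4) = Real.exp (-t) by ring, Real.log_exp] at this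
    rw [← this]
    rw [show 1 / 2 * Real.exp (-t) * (1 + t) = 2 * (Real.exp (-t) / 4) * (1 - -t) by ring,
      show 3 / 8 * Real.exp (-t) ^ 2 * (1 + 2 * t) =
        6 * (Real.exp (-t) / 4) ^ 2 * (1 - 2 * -t) by ring]
  have inf1 : ∀ i : Fin 2, (![Set.Ioo (1 : ℝ) 2, Set.Ioo (0 : ℝ) 1] i).Infinite := by
    intro i
    fin_cases i
    · exact Set.Ioo_infinite (by norm_num)
    · exact Set.Ioo_infinite (by norm_num)
  refine MvPolynomial.funext_set _ inf1 fun x hx => ?_
  rw [map_zero]
  have hu : x 0 ∈ Set.Ioo (1 : ℝ) 2 := hx 0 trivial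
  have hv : x 1 ∈ Set.Ioo (0 : ℝ) 1 := hx 1 trivial
  set u := x 0
  set v := x 1
  have hpos : 0 < 4 * u ^ 2 - 8 / 3 * v := by nlinarith [hu.1, hv.2]
  set W := Real.sqrt (4 * u ^ 2 - 8 / 3 * v) with hW
  have hW2 : W ^ 2 = 4 * u ^ 2 - 8 / 3 * v := Real.sq_sqrt hpos.le
  have hW0 : 0 ≤ W := Real.sqrt_nonneg _
  have hE : 0 < 2 * u - W := by
    have : W < 2 * u := by
      refine lt_of_pow_lt_pow_left₀ 2 (by linarith [hu.1]) ?_
      rw [hW2]
      nlinarith [hv.1]
    linarith
  have h5 := ev (2 * u - W) (W / (2 * u - W))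
  rw [hR0] at h5
  have e1 : 1 / 2 * (2 * u - W) * (1 + W / (2 * u - W)) = u := by
    field_simp
    ring
  have e2 : 3 / 8 * (2 * u - W) ^ 2 * (1 + 2 * (W / (2 * u - W))) = v := by
    have : (2 * u - W) ^ 2 * (1 + 2 * (W / (2 * u - W))) = 4 * u ^ 2 - W ^ 2 := by
      field_simp
      ring
    rw [mul_assoc, this, hW2]
    ring
  rw [e1, e2] at h5
  have h6 : x = ![u, v] := by
    ext i
    fin_cases i <;> rfl
  rw [h6, ← h5]
  simp

end Pool.Agent.Q117.SA
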